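import Pool.Agent.W516.K3.Defs

/-! DK-NORM: the normal form of a hyperbolic element. -/

set_option autoImplicit false

namespace Pool.W335.DK

open Module Pool.Agent.W516.K3

variable {T : Type} [AddCommGroup T] [Module ℝ T]

lemma wdg_apply (b : T →ₗ[ℝ] T →ₗ[ℝ] ℝ) (u v t : T) :
    wdg b u v t = b v t • u - b u t • v := rfl

lemma orth {b : T →ₗ[ℝ] T →ₗ[ℝ] ℝ} {y : Module.End ℝ T}
    (hs : ∀ u v, b (y u) v + b u (y v) = 0) {u v : T} {l m : ℝ} (hu : y u = l • u)
    (hv : y v = m • v) (h : l + m ≠ 0) : b u v = 0 := by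
  have := hs u v
  rw [hu, hv, map_smul, map_smul, LinearMap.smul_apply, smul_eq_mul, smul_eq_mul] at this
  have h2 : (l + m) * b u v = 0 := by linarith
  rcases mul_eq_zero.1 h2 with h3 | h3
  · exact absurd h3 h
  · exact h3

lemma exists_ef {b : T →ₗ[ℝ] T →ₗ[ℝ] ℝ} (hb : ∀ u v, b u v = b v u)
    (hn : ∀ u, (∀ v, b u v = 0) → u = 0) {y : Module.End ℝ T}
    (hs : ∀ u v, b (y u) v + b u (y v) = 0) (hy : IsHyp y) (h0 : y ≠ 0) :
    ∃ (e f : T) (l : ℝ), 0 < l ∧ y e = l • e ∧ y f = (-l) • f ∧ b e f = 1 := by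
  have h1 : ∃ (l : ℝ) (e : T), l ≠ 0 ∧ y e = l • e ∧ e ≠ 0 := by
    by_contra hcon
    push Not at hcon
    apply h0
    have : (⨆ μ : ℝ, Module.End.eigenspace y μ) ≤ Module.End.eigenspace y 0 := by
      refine iSup_le fun μ v hv => ?_
      by_cases hμ : μ = 0
      · rwa [hμ] at hv
      · rw [hcon μ v hμ (Module.End.mem_eigenspace_iff.1 hv)]
        exact Submodule.zero_mem _
    unfold IsHyp at hy
    rw [hy] at this
    ext v
    have h2 := Module.End.mem_eigenspace_iff.1 (this (Submodule.mem_top (x := v)))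
    rw [h2, zero_smul, LinearMap.zero_apply]
  obtain ⟨l, e, hl, he, hne⟩ := h1
  have h2 : ∃ f : T, y f = (-l) • f ∧ b e f = 1 := by
    by_contra hcon
    push Not at hcon
    apply hne
    apply hn
    have h3 : ∀ f, y f = (-l) • f → b e f = 0 := by
      intro f hf
      by_contra h4
      refine hcon ((b e f)⁻¹ • f) ?_ ?_
      · rw [map_smul, hf, smul_comm]
      · rw [map_smul, smul_eq_mul, inv_mul_cancel₀ h4]
    have h4 : (⨆ μ : ℝ, Module.End.eigenspace y μ) ≤ LinearMap.ker (b e) := by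
      refine iSup_le fun μ v hv => ?_
      rw [LinearMap.mem_ker]
      have hv' := Module.End.mem_eigenspace_iff.1 hv
      by_cases hμ : l + μ = 0
      · have : μ = -l := by linarith
        rw [this] at hv'
        exact h3 v hv'
      · exact orth hs he hv' hμ
    unfold IsHyp at hy
    rw [hy] at h4
    intro v
    exact LinearMap.mem_ker.1 (h4 (Submodule.mem_top (x := v)))
  obtain ⟨f, hf, hef⟩ := h2
  rcases lt_or_gt_of_ne hl with h | h
  · refine ⟨f, e, -l, by linarith, hf, by rw [neg_neg]; exact he, ?_⟩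
    rw [hb]; exact hef
  · exact ⟨e, f, l, h, he, hf, hef⟩

/-- one step -/
lemma step {b : T →ₗ[ℝ] T →ₗ[ℝ] ℝ} (hb : ∀ u v, b u v = b v u)
    (hn : ∀ u, (∀ v, b u v = 0) → u = 0) {y : Module.End ℝ T}
    (hs : ∀ u v, b (y u) v + b u (y v) = 0) (hy : IsHyp y) (h0 : y ≠ 0) :
    ∃ (e f : T) (l : ℝ) (y' : Module.End ℝ T), 0 < l ∧ y = l • wdg b e f + y' ∧
      b e e = 0 ∧ b f f = 0 ∧ b e f = 1 ∧ (∀ u v, b (y' u) v + b u (y' v) = 0) ∧ IsHyp y' ∧
      y' e = 0 ∧ y' f = 0 ∧ ∀ t, y t = 0 → (b e t = 0 ∧ b f t = 0 ∧ y' t = 0) := by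
  obtain ⟨e, f, l, hl, he, hf, hef⟩ := exists_ef hb hn hs hy h0
  have hee : b e e = 0 := orth hs he he (by linarith)
  have hff : b f f = 0 := orth hs hf hf (by linarith)
  have hfe : b f e = 1 := by rw [hb]; exact hef
  have hz : ∀ t, y t = 0 → b e t = 0 ∧ b f t = 0 := by
    intro t ht
    have ht' : y t = (0 : ℝ) • t := by rw [ht, zero_smul]
    exact ⟨orth hs he ht' (by linarith), orth hs hf ht' (by linarith)⟩
  have hap : ∀ t, (y - l • wdg b e f) t = y t - l • (b f t • e - b e t • f) := fun t => rfl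
  have e0 : (y - l • wdg b e f) e = 0 := by
    rw [hap, he, hfe, hee]
    simp
  have f0 : (y - l • wdg b e f) f = 0 := by
    rw [hap, hf, hff, hef]
    simp
  refine ⟨e, f, l, y - l • wdg b e f, hl, by abel, hee, hff, hef, ?_, ?_, e0, f0, ?_⟩
  · intro u v
    rw [hap, hap]
    simp only [map_sub, map_smul, LinearMap.sub_apply, LinearMap.smul_apply, smul_eq_mul]
    rw [hb u e, hb u f]
    linarith [hs u v]
  · unfold IsHyp
    rw [eq_top_iff]
    unfold IsHyp at hy
    rw [← hy]
    refine iSup_le fun μ v hv => ?_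
    have hv' := Module.End.mem_eigenspace_iff.1 hv
    have me : ∀ t, (y - l • wdg b e f) t = 0 →
        t ∈ ⨆ μ : ℝ, Module.End.eigenspace (y - l • wdg b e f) μ := by
      intro t ht
      refine Submodule.mem_iSup_of_mem (0 : ℝ) ?_
      rw [Module.End.mem_eigenspace_iff, ht, zero_smul]
    have k1 : l * b f v = μ * b f v := by
      by_cases h : -l + μ = 0
      · have : μ = l := by linarith
        rw [this]
      · rw [orth hs hf hv' h, mul_zero, mul_zero]
    have k2 : -l * b e v = μ * b e v := by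
      by_cases h : l + μ = 0
      · have : μ = -l := by linarith
        rw [this]
      · rw [orth hs he hv' h, mul_zero, mul_zero]
    set v' : T := v - b f v • e - b e v • f with hv'd
    have hfv : b f v' = 0 := by
      rw [hv'd]
      simp only [map_sub, map_smul, smul_eq_mul, hfe, hff]
      ring
    have hev : b e v' = 0 := by
      rw [hv'd]
      simp only [map_sub, map_smul, smul_eq_mul, hef, hee]
      ring
    have m1 : v' ∈ ⨆ μ : ℝ, Module.End.eigenspace (y - l • wdg b e f) μ := by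
      refine Submodule.mem_iSup_of_mem μ ?_
      rw [Module.End.mem_eigenspace_iff, hap, hfv, hev]
      simp only [zero_smul, sub_zero, smul_zero]
      rw [hv'd, map_sub, map_sub, map_smul, map_smul, hv', he, hf, smul_sub, smul_sub]
      rw [smul_smul, smul_smul, smul_smul, smul_smul]
      congr 1
      · congr 2
        linarith
      · congr 1
        linarith
    have m2 : v = v' + (b f v • e + b e v • f) := by rw [hv'd]; abel
    rw [m2]
    refine Submodule.add_mem _ m1 (Submodule.add_mem _ ?_ ?_)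
    · exact Submodule.smul_mem _ _ (me e e0)
    · exact Submodule.smul_mem _ _ (me f f0)
  · intro t ht
    refine ⟨(hz t ht).1, (hz t ht).2, ?_⟩
    rw [hap, ht, (hz t ht).1, (hz t ht).2]
    simp

theorem T_NORM : S_NORM := by
  intro T _ _ _ b hb hn hw y hs hy h0
  obtain ⟨e1, f1, a1, y1, l1, d1, ee1, ff1, ef1, s1, H1, ye1, yf1, z1⟩ := step hb hn hs hy h0
  by_cases c1 : y1 = 0
  · left
    refine ⟨e1, f1, a1, l1, ee1, ff1, ef1, ?_⟩
    rw [d1, c1, add_zero]
  obtain ⟨e2, f2, a2, y2, l2, d2, ee2, ff2, ef2, s2, H2, ye2, yf2, z2⟩ := step hb hn s1 H1 c1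
  obtain ⟨p1, p2, p3⟩ := z2 e1 ye1
  obtain ⟨q1, q2, q3⟩ := z2 f1 yf1
  by_cases c2 : y2 = 0
  · right
    have hyy : y = a1 • wdg b e1 f1 + a2 • wdg b e2 f2 := by
      rw [d1, d2, c2, add_zero]
    have hH : Hyp2 b e1 f1 e2 f2 := {
      e11 := ee1
      e22 := ee2
      e12 := by rw [hb]; exact p1
      f11 := ff1
      f22 := ff2
      f12 := by rw [hb]; exact q2
      ef12 := by rw [hb]; exact p2
      ef21 := q1
      ef11 := ef1
      ef22 := ef2 }
    have hH' : Hyp2 b e2 f2 e1 f1 := {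
      e11 := ee2
      e22 := ee1
      e12 := p1
      f11 := ff2
      f22 := ff1
      f12 := q2
      ef12 := q1
      ef21 := by rw [hb]; exact p2
      ef11 := ef2
      ef22 := ef1 }
    rcases le_total a2 a1 with h | h
    · exact ⟨e1, f1, e2, f2, a1, a2, l2, h, hH, hyy⟩
    · exact ⟨e2, f2, e1, f1, a2, a1, l1, h, hH', by rw [hyy, add_comm]⟩
  exfalso
  obtain ⟨e3, f3, a3, y3, l3, d3, ee3, ff3, ef3, s3, H3, ye3, yf3, z3⟩ := step hb hn s2 H2 c2
  obtain ⟨r1, r2, _⟩ := z3 e1 p3
  obtain ⟨r1', r2', _⟩ := z3 f1 q3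
  obtain ⟨t1, t2, _⟩ := z3 e2 ye2
  obtain ⟨t1', t2', _⟩ := z3 f2 yf2
  -- `p`: b e2 e1 = 0, b f2 e1 = 0; `q`: b e2 f1 = 0, b f2 f1 = 0
  set E : Fin 3 → T := ![e1, e2, e3] with hE
  have hli : LinearIndependent ℝ E := by
    rw [Fintype.linearIndependent_iff]
    intro g hg
    rw [Fin.sum_univ_three] at hg
    simp only [hE, Matrix.cons_val_zero, Matrix.cons_val_one, Matrix.cons_val] at hg
    have k : ∀ f : T, g 0 * b e1 f + g 1 * b e2 f + g 2 * b e3 f = 0 := by
      intro f
      have := congrArg (fun t => b t f) hg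
      simpa using this
    have k1 := k f1
    have k2 := k f2
    have k3 := k f3
    have h12 : b e1 f2 = 0 := by rw [hb]; exact p2
    have h13 : b e1 f3 = 0 := by rw [hb]; exact r2
    have h23 : b e2 f3 = 0 := by rw [hb]; exact t2
    rw [ef1, q1, r1'] at k1
    rw [ef2, h12, t1'] at k2
    rw [ef3, h13, h23] at k3
    intro i
    fin_cases i
    · simpa using k1
    · simpa using k2
    · simpa using k3
  have hfr : finrank ℝ (Submodule.span ℝ (Set.range E)) = 3 := by
    rw [finrank_span_eq_card hli, Fintype.card_fin]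
  have hiso : ∀ i j, b (E i) (E j) = 0 := by
    intro i j
    have h12 : b e1 e2 = 0 := by rw [hb]; exact p1
    have h13 : b e1 e3 = 0 := by rw [hb]; exact r1
    have h23 : b e2 e3 = 0 := by rw [hb]; exact t1
    fin_cases i <;> fin_cases j <;> simp [hE, ee1, ee2, ee3, p1, r1, t1, h12, h13, h23]
  have hW := hw (Submodule.span ℝ (Set.range E)) (by
    intro u hu v hv
    induction hu using Submodule.span_induction with
    | mem x hx =>
      obtain ⟨i, rfl⟩ := hx
      induction hv using Submodule.span_induction with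
      | mem x hx =>
        obtain ⟨j, rfl⟩ := hx
        exact hiso i j
      | zero => exact map_zero _
      | add p q _ _ hp hq => rw [map_add, hp, hq, add_zero]
      | smul c p _ hp => rw [map_smul, hp, smul_zero]
    | zero => rw [map_zero, LinearMap.zero_apply]
    | add p q _ _ hp hq => rw [map_add, LinearMap.add_apply, hp, hq, add_zero]
    | smul c p _ hp => rw [map_smul, LinearMap.smul_apply, hp, smul_zero])
  omega

end Pool.W335.DK
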